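import Mathlib

/-!
# A balanced ballot system for offices with 7, 8 and 9 candidates using 20 ballots

Here `n = 4`, so `(2n - 1, 2n, 2n + 1) = (7, 8, 9)` and `6n - 3 = 21`.
-/

namespace Pool.Agent.Results.MP_14f59b_co.TwentyBallots

/-- A ballot for three offices with `a`, `b`, `c` candidates: an ordering of the candidates of
each office, i.e. a bijection from the positions onto the candidates. -/
abbrev Ballot (a b c : ℕ) : Type :=
  Equiv.Perm (Fin a) × Equiv.Perm (Fin b) × Equiv.Perm (Fin c)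

/-- `S` with the multiplicities `w` is a balanced ballot system. -/
structure IsBalanced {a b c : ℕ} (S : Finset (Ballot a b c)) (w : Ballot a b c → ℕ) : Prop where
  nonempty : S.Nonempty
  pos : ∀ β ∈ S, 0 < w β
  first : ∀ (p x y : Fin a),
    ∑ β ∈ S with β.1 p = x, w β = ∑ β ∈ S with β.1 p = y, w β
  second : ∀ (p x y : Fin b),
    ∑ β ∈ S with β.2.1 p = x, w β = ∑ β ∈ S with β.2.1 p = y, w β
  third : ∀ (p x y : Fin c),
    ∑ β ∈ S with β.2.2 p = x, w β = ∑ β ∈ S with β.2.2 p = y, w β

/-- the cyclic shifts used -/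
def A : Fin 20 → Fin 7 := ![0, 0, 1, 1, 2, 2, 3, 3, 3, 4, 4, 4, 5, 5, 5, 5, 6, 6, 6, 6]
/-- the cyclic shifts used -/
def B : Fin 20 → Fin 8 := ![1, 7, 0, 6, 3, 4, 2, 2, 7, 1, 4, 6, 4, 5, 5, 7, 0, 3, 4, 6]
/-- the cyclic shifts used -/
def C : Fin 20 → Fin 9 := ![7, 1, 5, 0, 8, 3, 6, 7, 2, 0, 8, 8, 7, 4, 8, 6, 1, 2, 5, 7]
/-- the multiplicities used -/
def W : Fin 20 → ℕ := ![24, 48, 55, 17, 16, 56, 50, 13, 9, 39, 3, 30, 3, 56, 7, 6, 8, 47, 1, 16]

/-- the ballots used -/
def f (l : Fin 20) : Ballot 7 8 9 :=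
  (Equiv.addRight (A l), Equiv.addRight (B l), Equiv.addRight (C l))

lemma f_inj : Function.Injective f := by
  have key : ∀ l m : Fin 20, A l = A m → B l = B m → C l = C m → l = m := by decide +kernel
  intro l m h
  have h1 : (f l).1 0 = (f m).1 0 := by rw [h]
  have h2 : (f l).2.1 0 = (f m).2.1 0 := by rw [h]
  have h3 : (f l).2.2 0 = (f m).2.2 0 := by rw [h]
  simp only [f, Equiv.coe_addRight, zero_add] at h1 h2 h3
  exact key l m h1 h2 h3

/-- the multiplicities as a function on ballots -/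
def w (β : Ballot 7 8 9) : ℕ := ∑ l, if f l = β then W l else 0

lemma w_f (l : Fin 20) : w (f l) = W l := by
  unfold w
  rw [Finset.sum_eq_single l]
  · simp
  · intro m _ hm
    rw [if_neg]
    exact fun h => hm (f_inj h)
  · simp

lemma sum_eq (P : Ballot 7 8 9 → Prop) [DecidablePred P] :
    ∑ β ∈ Finset.univ.image f with P β, w β = ∑ l, if P (f l) then W l else 0 := by
  rw [Finset.sum_filter, Finset.sum_image (fun x _ y _ h => f_inj h)]
  exact Finset.sum_congr rfl fun l _ => by rw [w_f]

theorem balanced : IsBalanced (Finset.univ.image f) w where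
  nonempty := ⟨f 0, Finset.mem_image_of_mem _ (Finset.mem_univ _)⟩
  pos := by
    intro β hβ
    obtain ⟨l, -, rfl⟩ := Finset.mem_image.1 hβ
    rw [w_f]
    revert l
    decide +kernel
  first := by
    have key : ∀ p x : Fin 7, ∑ l : Fin 20, (if p + A l = x then W l else 0) = 72 := by
      decide +kernel
    intro p x y
    rw [sum_eq, sum_eq]
    exact (key p x).trans (key p y).symm
  second := by
    have key : ∀ p x : Fin 8, ∑ l : Fin 20, (if p + B l = x then W l else 0) = 63 := by
      decide +kernel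
    intro p x y
    rw [sum_eq, sum_eq]
    exact (key p x).trans (key p y).symm
  third := by
    have key : ∀ p x : Fin 9, ∑ l : Fin 20, (if p + C l = x then W l else 0) = 56 := by
      decide +kernel
    intro p x y
    rw [sum_eq, sum_eq]
    exact (key p x).trans (key p y).symm

theorem result : ∃ n : ℕ, 0 < n ∧
    ∃ (S : Finset (Ballot (2 * n - 1) (2 * n) (2 * n + 1)))
      (w : Ballot (2 * n - 1) (2 * n) (2 * n + 1) → ℕ),
      IsBalanced S w ∧ S.card ≤ 6 * n - 4 :=
  ⟨4, by norm_num, Finset.univ.image f, w, balanced, by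
    refine (Finset.card_image_le).trans ?_
    simp⟩

end Pool.Agent.Results.MP_14f59b_co.TwentyBallots
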